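import Mathlib
import Pool.Agent.H10.Col4

set_option autoImplicit false

namespace Pool.Agent.Results.MP_279ba3_co.Subgraph

open Set Cardinal Pool.Agent.H10.Col

universe u

/-- The coloring number: the least cardinal `κ` for which some well-ordering `r` of the vertex set
gives every vertex `x` fewer than `κ` neighbours `y` with `r y x`. -/
noncomputable def col {V : Type u} (G : SimpleGraph V) : Cardinal.{u} :=
  sInf {κ : Cardinal.{u} | ∃ r : V → V → Prop, IsWellOrder V r ∧
    ∀ x, Cardinal.mk {y | G.Adj x y ∧ r y x} < κ}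

lemma col_le_iff {V : Type u} (G : SimpleGraph V) (c : Cardinal.{u}) :
    col G ≤ c ↔ ∃ r : V → V → Prop, IsWellOrder V r ∧ ∀ x, #{y | G.Adj x y ∧ r y x} < c := by
  constructor
  · intro h
    obtain ⟨r, hr, h2⟩ := csInf_mem (s := {κ : Cardinal.{u} | ∃ r : V → V → Prop,
      IsWellOrder V r ∧ ∀ x, #{y | G.Adj x y ∧ r y x} < κ})
      ⟨Order.succ #V, WellOrderingRel, inferInstance,
        fun x => Order.lt_succ_iff.2 (mk_set_le _)⟩
    exact ⟨r, hr, fun x => (h2 x).trans_le h⟩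
  · intro h
    exact csInf_le' h

lemma col_free {V : Type u} (G : SimpleGraph V) (k : ℕ) :
    col G ≤ (k + 1 : ℕ) ↔ Free G k ∅ univ := by
  rw [col_le_iff]
  refine exists_congr fun r => and_congr_right fun _ => ?_
  have e : ∀ x, bk G ∅ univ r x = {y | G.Adj x y ∧ r y x} := fun x => by ext y; simp [bk]
  have e2 : ∀ s : Set V, #s < (k + 1 : ℕ) ↔ s.encard ≤ k := by
    intro s
    rw [Nat.cast_add_one, Cardinal.lt_natCast_add_one_iff, ← Cardinal.toENat_le_natCast]
    rfl
  simp only [e, e2, mem_univ, mem_empty_iff_false, not_false_eq_true, forall_const]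

lemma col_mono {V W : Type u} (G : SimpleGraph V) (H : SimpleGraph W) (f : W → V)
    (hf : Function.Injective f) (h : ∀ a c, H.Adj a c → G.Adj (f a) (f c)) : col H ≤ col G := by
  obtain ⟨r, hr, h2⟩ := (col_le_iff G _).1 le_rfl
  refine (col_le_iff H _).2 ⟨fun a c => r (f a) (f c),
    RelEmbedding.isWellOrder (RelEmbedding.preimage ⟨f, hf⟩ r), fun x => ?_⟩
  refine lt_of_le_of_lt ?_ (h2 (f x))
  rw [← mk_image_eq hf]
  apply mk_le_mk_of_subset
  rintro _ ⟨y, hy, rfl⟩
  exact ⟨h _ _ hy.1, hy.2⟩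

lemma col_sub {V : Type u} (G H : SimpleGraph V) (h : H ≤ G) :
    col (SimpleGraph.toSubgraph H h).coe = col H :=
  le_antisymm (col_mono _ _ Subtype.val Subtype.val_injective fun _ _ h => h)
    (col_mono _ _ (fun x => ⟨x, mem_univ x⟩) (fun _ _ h => congrArg Subtype.val h) fun _ _ h => h)

lemma eq_of {c : Cardinal.{u}} {n : ℕ} (h1 : c ≤ (n + 1 : ℕ)) (h2 : ¬ c ≤ n) : c = (n + 1 : ℕ) := by
  refine le_antisymm h1 ?_
  rw [Nat.cast_add_one, ← Cardinal.succ_natCast]
  exact Order.succ_le_of_lt (not_le.1 h2)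

/-- Every graph of coloring number `n + 1` has a subgraph of coloring number `n`. -/
theorem result (V : Type u) (G : SimpleGraph V) (n : ℕ) (h : col G = (n : Cardinal.{u}) + 1) :
    ∃ H : G.Subgraph, col H.coe = (n : Cardinal.{u}) := by
  have hn : ¬ col G ≤ n := by
    rw [h, ← Nat.cast_add_one, Nat.cast_le]; omega
  rcases n with _ | _ | b
  · refine ⟨⊥, le_antisymm ((col_le_iff _ _).2 ⟨WellOrderingRel, inferInstance, fun x => ?_⟩)
      (by simp)⟩
    exact (x.2 : False).elim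
  · refine ⟨SimpleGraph.toSubgraph ⊥ bot_le, ?_⟩
    rw [col_sub]
    refine eq_of ((col_free _ 0).2 (free_bot _ _ _)) fun h' => ?_
    obtain ⟨r, hr, h2⟩ := (col_le_iff _ _).1 h'
    apply hn
    exact (col_le_iff _ _).2 ⟨r, hr, fun x => absurd (h2 x) (by simp)⟩
  · obtain ⟨H, hH, h1, h2⟩ := ex_all G b _ ∅ univ rfl (by simp) fun h' =>
      hn ((col_free G (b + 1)).2 (h'.mono (Nat.le_succ b)))
    refine ⟨SimpleGraph.toSubgraph H hH, ?_⟩
    rw [col_sub]
    exact eq_of ((col_free _ _).2 h1) fun h' => h2 ((col_free _ _).1 h')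

end Pool.Agent.Results.MP_279ba3_co.Subgraph
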